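import Pool.Agent.P8H15.EK.Fin2
import Pool.Agent.P8H15.EK.Parts

/-!
# The ranks of almost all elliptic curves in all Galois extensions of 2-power degree

Let `F` be any number field. The family is the one of the problem: the pairs `(A, B)` of integers of `F`
with `4 A³ + 27 B² ≠ 0` such that no nonzero prime ideal `𝔭` has `𝔭⁴ ∣ A` and `𝔭⁶ ∣ B`, ordered by the
height `max_σ max (4 |σ A|³, 27 |σ B|²)`.

Theorem. There are a constant `C` and a function `c` on the family such that the average of `2 ^ c(E)` over the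
members of height at most `X` is at most `C`, for all `X`, and such that for all members `E` with irreducible
cubic (these are 100%) and for ALL finite Galois extensions `K / F` of 2-power degree

  `rank E(K) ≤ [K : F] (7 c(E) + 6 t)`, `t` = the number of the primes of `F` which ramify in `K`.

So all but a proportion `C / 2 ^ r` of the curves of large height satisfy `rank E(K) ≤ [K : F] (7 r + 6 t)` for
all these infinitely many fields `K` at once. And for each `K` the averages over ALL members of the family of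
large height of `rank E(K)` and of `2 ^ (rank E(K) / (7 [K : F]))` are at most `[K : F] (C + 6 t)` and `C 2 ^ t`,
where `C` depends on `F` only; for example the average rank is at most `C [K : F]` in all the layers of an
infinite unramified 2-tower of `F`.

Proof. `G = Gal(K / F)` is a 2-group, so `V = E(K) / 2 E(K)` has at most `|V^G| ^ |G|` elements. Let `θ` be a
zero of the cubic, `L = F(θ)`, `M = K(θ)`. If the class of `P = (x, y)` is fixed by `G` then `x - θ = α γ²` with
`α ∈ L`, `γ ∈ M`, and the norm of `α` to `F` is a square (Hilbert 90, the degree three being odd). At the primes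
`v` with `v² ∤ 4 A³ + 27 B²` that do not ramify in `K` the valuations of `α` are even. Up to an index
`2 ^ (6 (number of the other primes) + 3 [F : ℚ])` such an `α` comes, after multiplication with a square, with a
unimodular lattice of `MP_7cad78_nt.BoundedAverageRank` (`EK/Stm`: parts CON, LAT, COP, SQI, ABV, IDX). The number of
the square classes of the `α` with a lattice is bounded on average by the count of `BoundedAverageRank`
(reduction theory; `EK/Cnt`), and so is `2 ^ (number of the v with v² ∣ 4 A³ + 27 B²)` (DI2).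

Project EK: helper15 with helpers 33, 53, 55, 59, 76, 85, 94.
-/

set_option autoImplicit false
set_option linter.all false

namespace Pool.Agent.Results.MP_7cad78_nt.AllTwoExtensions

open Filter NumberField IsDedekindDomain Topology Polynomial
open scoped Classical

section defs

variable (F : Type) [Field F] [NumberField F]

/-- The family of the problem: pairs of integers `(A, B)` with `4 A ^ 3 + 27 B ^ 2 ≠ 0` for which no
nonzero prime ideal `𝔭` satisfies both `𝔭 ^ 4 ∣ A` and `𝔭 ^ 6 ∣ B`. -/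
def Family : Set (𝓞 F × 𝓞 F) :=
  {p | 4 * p.1 ^ 3 + 27 * p.2 ^ 2 ≠ 0 ∧
    ∀ 𝔭 : Ideal (𝓞 F), 𝔭.IsPrime → 𝔭 ≠ ⊥ → ¬ (p.1 ∈ 𝔭 ^ 4 ∧ p.2 ∈ 𝔭 ^ 6)}

variable {F}

/-- The height `max_σ max (4 |σ A|³, 27 |σ B|²)`, over the embeddings `σ : F → ℂ`. -/
noncomputable def height (p : 𝓞 F × 𝓞 F) : ℝ :=
  ⨆ σ : F →+* ℂ, max (4 * ‖σ (p.1 : F)‖ ^ 3) (27 * ‖σ (p.2 : F)‖ ^ 2)

variable (F) in
/-- The members of the family of height at most `X`. -/
def UpTo (X : ℝ) : Set (𝓞 F × 𝓞 F) := {p ∈ Family F | height p ≤ X}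

/-- The cubic `x ^ 3 + A x + B` over `F`. -/
noncomputable def cubic (p : 𝓞 F × 𝓞 F) : F[X] := X ^ 3 + C (p.1 : F) * X + C (p.2 : F)

/-- The curve `y ^ 2 = x ^ 3 + A x + B` over the extension `K` of `F`. -/
def curve (K : Type) [Field K] [Algebra F K] (p : 𝓞 F × 𝓞 F) : WeierstrassCurve K :=
  ⟨0, 0, 0, algebraMap F K (p.1 : F), algebraMap F K (p.2 : F)⟩

/-- The rank of the group of the points over the extension `K` of `F`. -/
noncomputable def rank (K : Type) [Field K] [Algebra F K] (p : 𝓞 F × 𝓞 F) : ℕ :=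
  Module.finrank ℤ (curve K p).toAffine.Point

variable (F) in
/-- The primes `v` of `F` which ramify in `K`: there is a prime `w` of `K` over `v` with `v 𝓞_K ⊆ w²`. -/
def Ramified (K : Type) [Field K] [NumberField K] [Algebra F K] : Set (HeightOneSpectrum (𝓞 F)) :=
  {v | ∃ w : HeightOneSpectrum (𝓞 K), w.asIdeal.under (𝓞 F) = v.asIdeal ∧
    Ideal.map (algebraMap (𝓞 F) (𝓞 K)) v.asIdeal ≤ w.asIdeal ^ 2}

variable (F) in
/-- The average of a function on the pairs over the members of the family of height at most `X`. -/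
noncomputable def average (φ : 𝓞 F × 𝓞 F → ℝ) (X : ℝ) : ℝ :=
  (∑ᶠ p ∈ UpTo F X, φ p) / ((UpTo F X).ncard : ℝ)

/-- The bound `rank E(K) ≤ [K : F] (A + 6 t)` for all Galois extensions `K / F` of 2-power degree, where
`t` is the number of the primes of `F` which ramify in `K`. -/
def AllBound (A : ℕ) (p : 𝓞 F × 𝓞 F) : Prop :=
  ∀ (K : Type) [Field K] [NumberField K] [Algebra F K] [IsGalois F K] (n : ℕ),
    Module.finrank F K = 2 ^ n → rank K p ≤ Module.finrank F K * (A + 6 * (Ramified F K).ncard)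

end defs

section proof

variable {F : Type} [Field F] [NumberField F]

theorem crv_iff (X : ℝ) (p : 𝓞 F × 𝓞 F) :
    Pool.Agent.N783.PF.Crv X p ↔ p ∈ UpTo F X := by
  have hb : BddAbove (Set.range fun σ : F →+* ℂ =>
      max (4 * ‖σ (p.1 : F)‖ ^ 3) (27 * ‖σ (p.2 : F)‖ ^ 2)) := Set.Finite.bddAbove (Set.finite_range _)
  constructor
  · rintro ⟨h1, h2, h3⟩
    refine ⟨⟨h1, h2⟩, ciSup_le fun σ => max_le (h3 σ).1 (h3 σ).2⟩
  · rintro ⟨⟨h1, h2⟩, h3⟩
    refine ⟨h1, h2, fun σ => ?_⟩
    have h4 := (le_ciSup hb σ).trans h3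
    exact ⟨(le_max_left _ _).trans h4, (le_max_right _ _).trans h4⟩

variable (F) in
theorem upTo_finite (X : ℝ) : (UpTo F X).Finite := by
  have h := Pool.Agent.N61.PF.crv_finite (F := F) Pool.Agent.N490.PF.pts X
  refine h.subset fun p hp => (crv_iff X p).2 hp

theorem one_mem {X : ℝ} (hX : 27 ≤ X) : ((1, 1) : 𝓞 F × 𝓞 F) ∈ UpTo F X := by
  rw [← crv_iff]
  refine ⟨?_, ?_, ?_⟩
  · norm_num
  · intro 𝔭 hp _ hcon
    apply hp.ne_top
    rw [Ideal.eq_top_iff_one]
    exact Ideal.pow_le_self (by norm_num) hcon.1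
  · intro σ
    constructor
    · simp; linarith
    · simp; linarith

theorem cubic_eq (p : 𝓞 F × 𝓞 F) :
    Pool.Agent.N783.PF.fF (Pool.Agent.N61.PF.pol p.1 p.2) = cubic p := by
  simp [Pool.Agent.N783.PF.fF, Pool.Agent.N61.PF.pol, cubic]

theorem ram_eq (K : Type) [Field K] [NumberField K] [Algebra F K] :
    {v : HeightOneSpectrum (𝓞 F) | Pool.Agent.P8H15.EK.RamIn K v} = Ramified F K := by
  ext v
  constructor
  · rintro ⟨w, h1, h2⟩
    refine ⟨w, ?_, h2⟩
    have hle : v.asIdeal ≤ w.asIdeal.under (𝓞 F) := fun z hz => h1 z hz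
    have hne : w.asIdeal.under (𝓞 F) ≠ ⊤ := (Ideal.IsPrime.under (𝓞 F) w.asIdeal).ne_top
    exact (v.isMaximal.eq_of_le hne hle).symm
  · rintro ⟨w, h1, h2⟩
    refine ⟨w, fun z hz => ?_, h2⟩
    rw [← h1] at hz
    exact hz

open Pool.Agent.P8H15.EK (S_SEL S_DI2 S_RAM maj2 maj2_avg rkK rkK_le2 red_exp red_few2 red_rkK nram dis_of)

theorem rank_eq (K : Type) [Field K] [NumberField K] [Algebra F K] (p : 𝓞 F × 𝓞 F) :
    rkK K p = rank K p := rfl

theorem nram_eq (K : Type) [Field K] [NumberField K] [Algebra F K] :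
    nram F K = (Ramified F K).ncard := by
  rw [← ram_eq]
  rfl

theorem result_of (hS : S_SEL) (hD : S_DI2) (hR : S_RAM) (F : Type) [Field F] [NumberField F] :
    (∀ X : ℝ, (UpTo F X).Finite) ∧
    (∀ᶠ X : ℝ in atTop, (UpTo F X).Nonempty) ∧
    ∃ C : ℝ, 0 < C ∧
      (∃ c : 𝓞 F × 𝓞 F → ℕ, (∀ X : ℝ, average F (fun p => (2 : ℝ) ^ c p) X ≤ C) ∧
        ∀ p ∈ Family F, Irreducible (cubic p) → AllBound (7 * c p) p) ∧
      (∀ r : ℕ, ∀ᶠ X : ℝ in atTop,
        ({p ∈ UpTo F X | ¬ AllBound (7 * r) p}.ncard : ℝ) ≤ C / 2 ^ r * ((UpTo F X).ncard : ℝ)) ∧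
      ∀ (K : Type) [Field K] [NumberField K] [Algebra F K] [IsGalois F K] (n : ℕ),
        Module.finrank F K = 2 ^ n → (Ramified F K).Finite ∧ ∀ᶠ X : ℝ in atTop,
          average F (fun p => (rank K p : ℝ)) X ≤
            Module.finrank F K * (C + 6 * ((Ramified F K).ncard : ℝ)) ∧
          average F (fun p => (2 : ℝ) ^ ((rank K p : ℝ) / (7 * Module.finrank F K))) X ≤
            C * 2 ^ (Ramified F K).ncard := by
  have hfin := upTo_finite F
  have hmem : ∀ (X : ℝ) (p : 𝓞 F × 𝓞 F), p ∈ (hfin X).toFinset ↔ Pool.Agent.N783.PF.Crv X p := by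
    intro X p
    rw [Set.Finite.mem_toFinset]
    exact (crv_iff X p).symm
  obtain ⟨C, hC, havg⟩ := maj2_avg hD F
  have hsum : ∀ X : ℝ, ∑ p ∈ (hfin X).toFinset, (2 : ℝ) ^ maj2 p ≤ C * ((UpTo F X).ncard : ℝ) := by
    intro X
    rw [Set.ncard_eq_toFinset_card _ (hfin X)]
    exact havg X (hfin X).toFinset (hmem X)
  have hpos : ∀ X : ℝ, 27 ≤ X → 0 < (UpTo F X).ncard := fun X hX => by
    rw [Set.ncard_pos (hfin X)]
    exact ⟨_, one_mem hX⟩
  have hdiv : ∀ (D : ℝ), 0 ≤ D → ∀ (X a : ℝ), a ≤ D * ((UpTo F X).ncard : ℝ) →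
      a / ((UpTo F X).ncard : ℝ) ≤ D := by
    intro D hD0 X a h
    rcases Nat.eq_zero_or_pos (UpTo F X).ncard with h0 | h0
    · rw [h0, Nat.cast_zero, div_zero]
      exact hD0
    · rw [div_le_iff₀ (by exact_mod_cast h0)]
      exact h
  have hall : ∀ p ∈ Family F, Irreducible (cubic p) → AllBound (7 * maj2 p) p := by
    intro p hp hirr K _ _ _ _ n hn
    have h := rkK_le2 hS (dis_of hD) hR K n hn p hp.1 (by rw [cubic_eq]; exact hirr)
    rw [nram_eq] at h
    exact h
  have hmono : ∀ (A A' : ℕ) (p : 𝓞 F × 𝓞 F), A ≤ A' → AllBound A p → AllBound A' p := by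
    intro A A' p hA h K _ _ _ _ n hn
    refine (h K n hn).trans (Nat.mul_le_mul_left _ ?_)
    omega
  refine ⟨hfin, ?_, 7 * C + 1, by positivity, ⟨maj2, ?_, hall⟩, ?_, ?_⟩
  · filter_upwards [eventually_ge_atTop 27] with X hX
    exact ⟨_, one_mem hX⟩
  · intro X
    unfold average
    rw [finsum_mem_eq_finite_toFinset_sum _ (hfin X)]
    refine hdiv (7 * C + 1) (by positivity) X _ ((hsum X).trans ?_)
    exact mul_le_mul_of_nonneg_right (by linarith) (Nat.cast_nonneg _)
  · intro r
    obtain ⟨Y₀, hY₀⟩ := red_few2 F 1 (1 / 2 ^ r) (by positivity)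
    filter_upwards [eventually_ge_atTop Y₀] with X hX
    have h1 := hY₀ X hX (hfin X).toFinset (hmem X) (fun _ => 1) (fun B p hB _ _ => by
      rw [Nat.cast_one, one_mul]
      exact one_le_pow₀ (by exact_mod_cast hB))
    rw [Finset.sum_const, nsmul_eq_mul, mul_one, ← Set.ncard_eq_toFinset_card _ (hfin X)] at h1
    have h2 : ((((hfin X).toFinset.filter fun p => r < maj2 p).card : ℕ) : ℝ) ≤
        C / 2 ^ r * ((UpTo F X).ncard : ℝ) := by
      rw [div_mul_eq_mul_div, le_div_iff₀ (by positivity)]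
      calc ((((hfin X).toFinset.filter fun p => r < maj2 p).card : ℕ) : ℝ) * 2 ^ r =
            ∑ p ∈ (hfin X).toFinset.filter fun p => r < maj2 p, (2 : ℝ) ^ r := by
            rw [Finset.sum_const, nsmul_eq_mul]
        _ ≤ ∑ p ∈ (hfin X).toFinset.filter fun p => r < maj2 p, (2 : ℝ) ^ maj2 p := by
            refine Finset.sum_le_sum fun p hp => ?_
            exact pow_le_pow_right₀ (by norm_num) (Finset.mem_filter.1 hp).2.le
        _ ≤ ∑ p ∈ (hfin X).toFinset, (2 : ℝ) ^ maj2 p :=
            Finset.sum_le_sum_of_subset_of_nonneg (Finset.filter_subset _ _)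
              fun p _ _ => by positivity
        _ ≤ _ := hsum X
    have h5 : ({p ∈ UpTo F X | ¬ AllBound (7 * r) p}.ncard) ≤
        ((hfin X).toFinset.filter fun p => r < maj2 p).card +
        ((hfin X).toFinset.filter fun p => ¬ Irreducible (Pool.Agent.N783.PF.fF
          (Pool.Agent.N61.PF.pol p.1 p.2))).card := by
      refine le_trans ?_ (Finset.card_union_le _ _)
      rw [← Set.ncard_coe_finset]
      refine Set.ncard_le_ncard ?_ (Finset.finite_toSet _)
      rintro p ⟨hp, hb⟩
      rw [Finset.coe_union, Set.mem_union, Finset.mem_coe, Finset.mem_coe, Finset.mem_filter,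
        Finset.mem_filter, Set.Finite.mem_toFinset]
      by_contra hcon
      rw [not_or] at hcon
      apply hb
      have h6 : maj2 p ≤ r := by
        by_contra h7
        exact hcon.1 ⟨hp, not_le.1 h7⟩
      have h7 : Irreducible (cubic p) := by
        rw [← cubic_eq]
        by_contra h8
        exact hcon.2 ⟨hp, h8⟩
      exact hmono _ _ _ (Nat.mul_le_mul_left 7 h6) (hall p hp.1 h7)
    have h8 : ({p ∈ UpTo F X | ¬ AllBound (7 * r) p}.ncard : ℝ) ≤
        ((((hfin X).toFinset.filter fun p => r < maj2 p).card : ℕ) : ℝ) +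
        ((((hfin X).toFinset.filter fun p => ¬ Irreducible (Pool.Agent.N783.PF.fF
          (Pool.Agent.N61.PF.pol p.1 p.2))).card : ℕ) : ℝ) := by exact_mod_cast h5
    refine (h8.trans (add_le_add h2 h1)).trans ?_
    rw [← add_mul, ← add_div]
    refine mul_le_mul_of_nonneg_right ?_ (Nat.cast_nonneg _)
    exact div_le_div_of_nonneg_right (by linarith) (by positivity)
  · intro K _ _ _ _ n hn
    have hram : (Ramified F K).Finite := by
      rw [← ram_eq]
      exact hR F K
    refine ⟨hram, ?_⟩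
    obtain ⟨t, ht⟩ : ∃ t, t = (Ramified F K).ncard := ⟨_, rfl⟩
    obtain ⟨m, hm⟩ : ∃ m : ℝ, m = (Module.finrank F K : ℝ) := ⟨_, rfl⟩
    have hm1 : 1 ≤ m := by
      rw [hm]
      exact_mod_cast (Module.finrank_pos : 0 < Module.finrank F K)
    obtain ⟨M, hM⟩ := red_exp F K
    obtain ⟨Y₀, hY₀⟩ := red_few2 F M 1 one_pos
    obtain ⟨M', hM'⟩ := red_rkK F K
    obtain ⟨Y₁, hY₁⟩ := red_few2 F M' 1 one_pos
    filter_upwards [eventually_ge_atTop Y₀, eventually_ge_atTop Y₁] with X hX hX1
    have hN : (0 : ℝ) ≤ ((UpTo F X).ncard : ℝ) := Nat.cast_nonneg _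
    have h1 := hY₀ X hX (hfin X).toFinset (hmem X)
      (fun p => (2 : ℝ) ^ ((rank K p : ℝ) / (7 * Module.finrank F K))) hM
    have h1' := hY₁ X hX1 (hfin X).toFinset (hmem X) (fun p => (rank K p : ℝ))
      (fun B p hB hp hirr => (hM' B p hB hp hirr).trans (by
        refine mul_le_mul_of_nonneg_left ?_ (Nat.cast_nonneg _)
        exact le_self_pow₀ (by exact_mod_cast hB) (Module.finrank_pos (R := ℚ) (M := F)).ne'))
    rw [one_mul, ← Set.ncard_eq_toFinset_card _ (hfin X)] at h1 h1'
    rw [← hm] at h1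
    rw [← ht, ← hm]
    have hbd : ∀ p ∈ (hfin X).toFinset.filter (fun p => Irreducible (Pool.Agent.N783.PF.fF
        (Pool.Agent.N61.PF.pol p.1 p.2))), (rank K p : ℝ) ≤ m * (7 * maj2 p + 6 * t) := by
      intro p hp
      rw [Finset.mem_filter, Set.Finite.mem_toFinset] at hp
      have h3 := hall p hp.1.1 (by rw [← cubic_eq]; exact hp.2) K n hn
      rw [hm, ht]
      exact_mod_cast h3
    have hlt : ∀ p : 𝓞 F × 𝓞 F, ((maj2 p : ℕ) : ℝ) ≤ (2 : ℝ) ^ maj2 p := fun p => by
      exact_mod_cast Nat.lt_two_pow_self.le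
    have h5 := hsum X
    constructor
    · unfold average
      rw [finsum_mem_eq_finite_toFinset_sum _ (hfin X)]
      refine hdiv _ (by positivity) X _ ?_
      have h2 : ∑ p ∈ (hfin X).toFinset.filter (fun p => Irreducible (Pool.Agent.N783.PF.fF
          (Pool.Agent.N61.PF.pol p.1 p.2))), (rank K p : ℝ) ≤
          ∑ p ∈ (hfin X).toFinset, (m * (7 * (2 : ℝ) ^ maj2 p + 6 * t)) := by
        refine le_trans (Finset.sum_le_sum (g := fun p => m * (7 * (2 : ℝ) ^ maj2 p + 6 * t))
          fun p hp => ?_) (Finset.sum_le_sum_of_subset_of_nonneg (Finset.filter_subset _ _)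
            fun p _ _ => by positivity)
        refine (hbd p hp).trans (mul_le_mul_of_nonneg_left ?_ (by positivity))
        linarith [hlt p]
      have h4 : ∑ p ∈ (hfin X).toFinset, (m * (7 * (2 : ℝ) ^ maj2 p + 6 * t)) =
          m * (7 * ∑ p ∈ (hfin X).toFinset, (2 : ℝ) ^ maj2 p + 6 * t * ((UpTo F X).ncard : ℝ)) := by
        rw [← Finset.mul_sum, Finset.sum_add_distrib, Finset.sum_const, nsmul_eq_mul,
          Set.ncard_eq_toFinset_card _ (hfin X), ← Finset.mul_sum]
        ring
      rw [← Finset.sum_filter_add_sum_filter_not (hfin X).toFinset (fun p => Irreducible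
        (Pool.Agent.N783.PF.fF (Pool.Agent.N61.PF.pol p.1 p.2)))]
      have h6 : m * (7 * ∑ p ∈ (hfin X).toFinset, (2 : ℝ) ^ maj2 p) ≤
          m * (7 * (C * ((UpTo F X).ncard : ℝ))) :=
        mul_le_mul_of_nonneg_left (mul_le_mul_of_nonneg_left h5 (by norm_num)) (by positivity)
      have h7 : ((UpTo F X).ncard : ℝ) ≤ m * ((UpTo F X).ncard : ℝ) := le_mul_of_one_le_left hN hm1
      rw [h4] at h2
      nlinarith
    · unfold average
      rw [finsum_mem_eq_finite_toFinset_sum _ (hfin X)]
      refine hdiv _ (by positivity) X _ ?_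
      have h2t : (1 : ℝ) ≤ 2 ^ t := one_le_pow₀ (by norm_num)
      have h2 : ∑ p ∈ (hfin X).toFinset.filter (fun p => Irreducible (Pool.Agent.N783.PF.fF
          (Pool.Agent.N61.PF.pol p.1 p.2))), (2 : ℝ) ^ ((rank K p : ℝ) / (7 * m)) ≤
          ∑ p ∈ (hfin X).toFinset, (2 ^ t * (2 : ℝ) ^ maj2 p) := by
        refine le_trans (Finset.sum_le_sum (g := fun p => 2 ^ t * (2 : ℝ) ^ maj2 p)
          fun p hp => ?_) (Finset.sum_le_sum_of_subset_of_nonneg (Finset.filter_subset _ _)
            fun p _ _ => by positivity)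
        have h3 : (rank K p : ℝ) / (7 * m) ≤ t + maj2 p := by
          rw [div_le_iff₀ (by positivity)]
          refine (hbd p hp).trans ?_
          have : (0 : ℝ) ≤ m * t := by positivity
          linarith
        calc (2 : ℝ) ^ ((rank K p : ℝ) / (7 * m)) ≤ (2 : ℝ) ^ ((t : ℝ) + maj2 p) :=
              Real.rpow_le_rpow_of_exponent_le (by norm_num) h3
          _ = 2 ^ t * (2 : ℝ) ^ maj2 p := by
              rw [Real.rpow_add (by norm_num), Real.rpow_natCast, Real.rpow_natCast]
      rw [← Finset.mul_sum] at h2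
      rw [← Finset.sum_filter_add_sum_filter_not (hfin X).toFinset (fun p => Irreducible
        (Pool.Agent.N783.PF.fF (Pool.Agent.N61.PF.pol p.1 p.2)))]
      have h6 : 2 ^ t * ∑ p ∈ (hfin X).toFinset, (2 : ℝ) ^ maj2 p ≤
          2 ^ t * (C * ((UpTo F X).ncard : ℝ)) := mul_le_mul_of_nonneg_left h5 (by positivity)
      have h7 : ((UpTo F X).ncard : ℝ) ≤ 2 ^ t * ((UpTo F X).ncard : ℝ) := le_mul_of_one_le_left hN h2t
      have h8 : 0 ≤ 2 ^ t * (C * ((UpTo F X).ncard : ℝ)) := by positivity
      nlinarith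

end proof

/-- **The ranks in all Galois extensions of 2-power degree.** For every number field `F` there is a constant
`C` with the following properties, for the family and the height of the problem. (1) There is a function `c`
on the family such that for all `X` the average of `2 ^ c(E)` over the members of height at most `X` is at most
`C`, and `rank E(K) ≤ [K : F] (7 c(E) + 6 t)` for all `E` with irreducible cubic and all finite Galois
extensions `K / F` of 2-power degree, `t` the number of the primes of `F` which ramify in `K`. (2) For all `r`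
and all large `X` at most a proportion `C / 2 ^ r` of the members of height at most `X` does not satisfy
`rank E(K) ≤ [K : F] (7 r + 6 t)` for all these `K` at once. (3) For every such `K` and all large `X` the
averages over ALL members of height at most `X` of `rank E(K)` and of `2 ^ (rank E(K) / (7 [K : F]))` are at
most `[K : F] (C + 6 t)` and `C 2 ^ t`. -/
theorem result (F : Type) [Field F] [NumberField F] :
    (∀ X : ℝ, (UpTo F X).Finite) ∧
    (∀ᶠ X : ℝ in atTop, (UpTo F X).Nonempty) ∧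
    ∃ C : ℝ, 0 < C ∧
      (∃ c : 𝓞 F × 𝓞 F → ℕ, (∀ X : ℝ, average F (fun p => (2 : ℝ) ^ c p) X ≤ C) ∧
        ∀ p ∈ Family F, Irreducible (cubic p) → AllBound (7 * c p) p) ∧
      (∀ r : ℕ, ∀ᶠ X : ℝ in atTop,
        ({p ∈ UpTo F X | ¬ AllBound (7 * r) p}.ncard : ℝ) ≤ C / 2 ^ r * ((UpTo F X).ncard : ℝ)) ∧
      ∀ (K : Type) [Field K] [NumberField K] [Algebra F K] [IsGalois F K] (n : ℕ),
        Module.finrank F K = 2 ^ n → (Ramified F K).Finite ∧ ∀ᶠ X : ℝ in atTop,
          average F (fun p => (rank K p : ℝ)) X ≤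
            Module.finrank F K * (C + 6 * ((Ramified F K).ncard : ℝ)) ∧
          average F (fun p => (2 : ℝ) ^ ((rank K p : ℝ) / (7 * Module.finrank F K))) X ≤
            C * 2 ^ (Ramified F K).ncard :=
  result_of Pool.Agent.P8H15.EK.sel_ Pool.Agent.P8H15.EK.di2_ Pool.Agent.P8H15.EK.ram_ F

end Pool.Agent.Results.MP_7cad78_nt.AllTwoExtensions
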