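import Pool.Agent.P8H15.BR.Fin

/-!
# The average rank of all elliptic curves over every number field is bounded

Let `F` be any number field. The family is the one of the problem: the pairs `(A, B)` of integers of `F`
with `4 A³ + 27 B² ≠ 0` such that no nonzero prime ideal `𝔭` has `𝔭⁴ ∣ A` and `𝔭⁶ ∣ B`, ordered by the
height `max_σ max (4 |σ A|³, 27 |σ B|²)`.

Theorem. There is a constant `C` (depending on `F`) such that for all `X` the average of
`2 ^ rank E(F)` over the members of the family of height at most `X` is at most `C`. In particular the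
average rank is at most `C`, the proportion of the curves of rank at least `r` is at most `C / 2 ^ r`
for all `r` and all `X`, and no mass escapes in the limits of Q1: whenever the proportions `δ_r` converge
along a sequence of heights, for all `r`, their limits have sum `1` (and `∑ 2 ^ r d_r ≤ C`).

Proof. Let `f = x³ + A x + B` be irreducible, `θ` a zero of it, `L = F(θ)`, `R = 𝓞 F [θ]`. For a point
`P = (x₀, y₀)` of `E(F)` put `α = x₀ - θ` and `𝔠 = {c ∈ 𝓞 F : c² x₀ integral}`. The lattice
`𝔠 α R + 𝔠² y₀ R` (`BR/Lat`) is unimodular for the form `(x, y) ↦` coefficient of `θ²` in `x y / α`, and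
stable under `θ`; so it gives pairs of symmetric 3 × 3 matrices over `𝓞 F` (also when it is not free: we
take independent vectors) which by reduction theory can be chosen in few boxes. The congruence class over
`F` of the pair determines the class of `α` modulo squares (`BR/Cls`), and so the class of `P` modulo
`2 E(F)` (`BR/Pts`). The number of the congruence classes of the pairs in the boxes is bounded with the
help of the unipotent matrices (`BR/Cnt`, after the project PF of helper783 and its authors, who count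
polynomials in place of classes). The curves with a rational point of order two are few, and their ranks
are bounded by descent by the 2-isogeny over `F` (`BR/Iso`, `BR/Desc2`, `BR/Red`).
-/

set_option autoImplicit false
set_option linter.all false

namespace Pool.Agent.Results.MP_7cad78_nt.BoundedAverageRank

open Filter NumberField Topology
open scoped Classical

section defs

variable (F : Type) [Field F] [NumberField F]

/-- The family of the problem: pairs of integers `(A, B)` with `4 A ^ 3 + 27 B ^ 2 ≠ 0` for which no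
nonzero prime ideal `𝔭` satisfies both `𝔭 ^ 4 ∣ A` and `𝔭 ^ 6 ∣ B`. -/
def Family : Set (𝓞 F × 𝓞 F) :=
  {p | 4 * p.1 ^ 3 + 27 * p.2 ^ 2 ≠ 0 ∧
    ∀ 𝔭 : Ideal (𝓞 F), 𝔭.IsPrime → 𝔭 ≠ ⊥ → ¬ (p.1 ∈ 𝔭 ^ 4 ∧ p.2 ∈ 𝔭 ^ 6)}

variable {F}

/-- The height `max_σ max (4 |σ A|³, 27 |σ B|²)`, over the embeddings `σ : F → ℂ`. -/
noncomputable def height (p : 𝓞 F × 𝓞 F) : ℝ :=
  ⨆ σ : F →+* ℂ, max (4 * ‖σ (p.1 : F)‖ ^ 3) (27 * ‖σ (p.2 : F)‖ ^ 2)

/-- The curve `y ^ 2 = x ^ 3 + A x + B` over `F`. -/
def curve (p : 𝓞 F × 𝓞 F) : WeierstrassCurve F := ⟨0, 0, 0, (p.1 : F), (p.2 : F)⟩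

/-- The group of the points over `F`. -/
abbrev points (p : 𝓞 F × 𝓞 F) : Type := (curve p).toAffine.Point

/-- The rank of the group of the points over `F`. -/
noncomputable def rank (p : 𝓞 F × 𝓞 F) : ℕ := Module.finrank ℤ (points p)

variable (F)

/-- The members of the family of height at most `X`. -/
def UpTo (X : ℝ) : Set (𝓞 F × 𝓞 F) := {p ∈ Family F | height p ≤ X}

/-- The proportion of the rank `r`. -/
noncomputable def δ (r : ℕ) (X : ℝ) : ℝ :=
  ({p ∈ UpTo F X | rank p = r}.ncard : ℝ) / ((UpTo F X).ncard : ℝ)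

/-- The proportion of the ranks at least `r`. -/
noncomputable def tail (r : ℕ) (X : ℝ) : ℝ :=
  ({p ∈ UpTo F X | r ≤ rank p}.ncard : ℝ) / ((UpTo F X).ncard : ℝ)

/-- The average of a function on the pairs over the members of the family of height at most `X`. -/
noncomputable def average (φ : 𝓞 F × 𝓞 F → ℝ) (X : ℝ) : ℝ :=
  (∑ᶠ p ∈ UpTo F X, φ p) / ((UpTo F X).ncard : ℝ)

end defs

theorem crv_iff {F : Type} [Field F] [NumberField F] (X : ℝ) (p : 𝓞 F × 𝓞 F) :
    Pool.Agent.N783.PF.Crv X p ↔ p ∈ UpTo F X := by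
  have hb : BddAbove (Set.range fun σ : F →+* ℂ =>
      max (4 * ‖σ (p.1 : F)‖ ^ 3) (27 * ‖σ (p.2 : F)‖ ^ 2)) := Set.Finite.bddAbove (Set.finite_range _)
  constructor
  · rintro ⟨h1, h2, h3⟩
    refine ⟨⟨h1, h2⟩, ciSup_le fun σ => max_le (h3 σ).1 (h3 σ).2⟩
  · rintro ⟨⟨h1, h2⟩, h3⟩
    refine ⟨h1, h2, fun σ => ?_⟩
    have h4 := (le_ciSup hb σ).trans h3
    exact ⟨(le_max_left _ _).trans h4, (le_max_right _ _).trans h4⟩

theorem upTo_finite (F : Type) [Field F] [NumberField F] (X : ℝ) : (UpTo F X).Finite := by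
  have h := Pool.Agent.N61.PF.crv_finite (F := F) Pool.Agent.N490.PF.pts X
  refine h.subset fun p hp => (crv_iff X p).2 hp

theorem one_mem {F : Type} [Field F] [NumberField F] {X : ℝ} (hX : 27 ≤ X) :
    ((1, 1) : 𝓞 F × 𝓞 F) ∈ UpTo F X := by
  rw [← crv_iff]
  refine ⟨?_, ?_, ?_⟩
  · norm_num
  · intro 𝔭 hp _ hcon
    apply hp.ne_top
    rw [Ideal.eq_top_iff_one]
    exact Ideal.pow_le_self (by norm_num) hcon.1
  · intro σ
    constructor
    · simp; linarith
    · simp; linarith

/-- **The average rank over every number field.** For every number field `F` there is a constant `C`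
with the following properties, for the family and the height of the problem: the groups `E(F)` are
finitely generated; for all `X` the average of `2 ^ rank` is at most `C`, the average rank is at most `C`
and the proportion of the ranks at least `r` is at most `C / 2 ^ r`; whenever the proportions of the
ranks `r` converge to `d r`, for all `r`, along some sequence of heights tending to infinity, the sum of
all the `d r` is `1`, and `∑ 2 ^ r d_r ≤ C`. -/
theorem result (F : Type) [Field F] [NumberField F] :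
    (∀ p ∈ Family F, AddGroup.FG (points p)) ∧
    (∀ X : ℝ, (UpTo F X).Finite) ∧
    (∀ᶠ X : ℝ in atTop, (UpTo F X).Nonempty) ∧
    ∃ C : ℝ, 0 < C ∧
      (∀ X : ℝ, average F (fun p => (2 : ℝ) ^ rank p) X ≤ C) ∧
      (∀ X : ℝ, average F (fun p => (rank p : ℝ)) X ≤ C) ∧
      (∀ (r : ℕ) (X : ℝ), tail F r X ≤ C / 2 ^ r) ∧
      ∀ (x : ℕ → ℝ) (d : ℕ → ℝ), Tendsto x atTop atTop →
        (∀ r : ℕ, Tendsto (fun n => δ F r (x n)) atTop (𝓝 (d r))) →
        HasSum d 1 ∧ ∀ R : ℕ, ∑ r ∈ Finset.range R, 2 ^ r * d r ≤ C := by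
  have hfin := upTo_finite F
  obtain ⟨C, hC, havg⟩ := Pool.Agent.P8H15.BR.avg F
  have hsum : ∀ X : ℝ, ∑ p ∈ (hfin X).toFinset, (2 : ℝ) ^ rank p ≤ C * ((UpTo F X).ncard : ℝ) := by
    intro X
    rw [Set.ncard_eq_toFinset_card _ (hfin X)]
    exact havg X (hfin X).toFinset (fun p => by
      rw [Set.Finite.mem_toFinset]
      exact (crv_iff X p).symm)
  have hdiv : ∀ (X a : ℝ), a ≤ C * ((UpTo F X).ncard : ℝ) → a / ((UpTo F X).ncard : ℝ) ≤ C := by
    intro X a h
    rcases Nat.eq_zero_or_pos (UpTo F X).ncard with h0 | h0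
    · rw [h0, Nat.cast_zero, div_zero]
      exact hC.le
    · rw [div_le_iff₀ (by exact_mod_cast h0)]
      exact h
  have hne : ∀ X : ℝ, 27 ≤ X → 0 < (UpTo F X).ncard := fun X hX => by
    rw [Set.ncard_pos (hfin X)]
    exact ⟨_, one_mem hX⟩
  -- sums over the ranks
  have hfib : ∀ (R : ℕ) (X : ℝ) (w : ℕ → ℝ), ∑ r ∈ Finset.range R,
      w r * ({p ∈ UpTo F X | rank p = r}.ncard : ℝ) =
      ∑ p ∈ (hfin X).toFinset.filter (fun p => rank p < R), w (rank p) := by
    intro R X w
    have h1 : ∀ p ∈ (hfin X).toFinset.filter (fun p => rank p < R), rank p ∈ Finset.range R := by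
      intro p hp
      rw [Finset.mem_filter] at hp
      exact Finset.mem_range.2 hp.2
    rw [← Finset.sum_fiberwise_of_maps_to h1]
    refine Finset.sum_congr rfl fun r hr => ?_
    have h2 : ({p ∈ UpTo F X | rank p = r}.ncard : ℝ) =
        ((((hfin X).toFinset.filter (fun p => rank p < R)).filter
          (fun p => rank p = r)).card : ℝ) := by
      rw [← Set.ncard_coe_finset]
      congr 2
      ext p
      simp only [Set.mem_setOf_eq, Finset.coe_filter, Finset.mem_filter, Set.Finite.mem_toFinset]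
      constructor
      · rintro ⟨h3, h4⟩
        exact ⟨⟨h3, by rw [h4]; exact Finset.mem_range.1 hr⟩, h4⟩
      · rintro ⟨⟨h3, -⟩, h4⟩
        exact ⟨h3, h4⟩
    rw [h2]
    have h3 : ∀ p ∈ ((hfin X).toFinset.filter (fun p => rank p < R)).filter
        (fun p => rank p = r), w (rank p) = w r := by
      intro p hp
      rw [(Finset.mem_filter.1 hp).2]
    rw [Finset.sum_congr rfl h3, Finset.sum_const, nsmul_eq_mul, mul_comm]
  have htail : ∀ (r : ℕ) (X : ℝ), (2 : ℝ) ^ r * ({p ∈ UpTo F X | r ≤ rank p}.ncard : ℝ) ≤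
      C * ((UpTo F X).ncard : ℝ) := by
    intro r X
    have h1 : ({p ∈ UpTo F X | r ≤ rank p}.ncard : ℝ) =
        (((hfin X).toFinset.filter (fun p => r ≤ rank p)).card : ℝ) := by
      rw [← Set.ncard_coe_finset]
      congr 2
      ext p
      simp only [Set.mem_setOf_eq, Finset.coe_filter, Set.Finite.mem_toFinset]
    rw [h1]
    calc (2 : ℝ) ^ r * (((hfin X).toFinset.filter (fun p => r ≤ rank p)).card : ℝ) =
          ∑ p ∈ (hfin X).toFinset.filter (fun p => r ≤ rank p), (2 : ℝ) ^ r := by
          rw [Finset.sum_const, nsmul_eq_mul, mul_comm]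
      _ ≤ ∑ p ∈ (hfin X).toFinset.filter (fun p => r ≤ rank p), (2 : ℝ) ^ rank p := by
          refine Finset.sum_le_sum fun p hp => ?_
          exact pow_le_pow_right₀ (by norm_num) (Finset.mem_filter.1 hp).2
      _ ≤ ∑ p ∈ (hfin X).toFinset, (2 : ℝ) ^ rank p :=
          Finset.sum_le_sum_of_subset_of_nonneg (Finset.filter_subset _ _)
            fun p _ _ => by positivity
      _ ≤ _ := hsum X
  refine ⟨?_, hfin, ?_, C, hC, ?_, ?_, ?_, ?_⟩
  · intro p hp
    have hd : 4 * (p.1 : F) ^ 3 + 27 * (p.2 : F) ^ 2 ≠ 0 := by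
      intro h
      apply hp.1
      apply RingOfIntegers.coe_injective
      have e4 : algebraMap (𝓞 F) F 4 = 4 := map_ofNat _ 4
      have e27 : algebraMap (𝓞 F) F 27 = 27 := map_ofNat _ 27
      change algebraMap (𝓞 F) F (4 * p.1 ^ 3 + 27 * p.2 ^ 2) = algebraMap (𝓞 F) F 0
      rw [map_add, map_mul, map_mul, map_pow, map_pow, e4, e27, map_zero]
      exact h
    exact Pool.Agent.K4H55.BD.mw F _ _ hd
  · filter_upwards [eventually_ge_atTop 27] with X hX
    exact ⟨_, one_mem hX⟩
  · intro X
    unfold average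
    rw [finsum_mem_eq_finite_toFinset_sum _ (hfin X)]
    exact hdiv X _ (hsum X)
  · intro X
    unfold average
    rw [finsum_mem_eq_finite_toFinset_sum _ (hfin X)]
    refine hdiv X _ (le_trans (Finset.sum_le_sum fun p _ => ?_) (hsum X))
    have := (Nat.lt_two_pow_self (n := rank p)).le
    exact_mod_cast this
  · intro r X
    unfold tail
    rw [le_div_iff₀ (by positivity), div_mul_eq_mul_div]
    refine hdiv X _ ?_
    rw [mul_comm]
    exact htail r X
  · intro x d hx hd
    have hev : ∀ᶠ n in atTop, 27 ≤ x n := hx.eventually_ge_atTop 27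
    have hd0 : ∀ r, 0 ≤ d r := fun r => ge_of_tendsto' (hd r) fun n => by
      unfold δ
      positivity
    have hδ : ∀ (r : ℕ) (X : ℝ), δ F r X * ((UpTo F X).ncard : ℝ) =
        ({p ∈ UpTo F X | rank p = r}.ncard : ℝ) := by
      intro r X
      unfold δ
      rcases Nat.eq_zero_or_pos (UpTo F X).ncard with h0 | h0
      · have h1 : ({p ∈ UpTo F X | rank p = r}.ncard) ≤ (UpTo F X).ncard :=
          Set.ncard_le_ncard (fun p hp => hp.1) (hfin X)
        rw [h0] at h1 ⊢
        rw [Nat.le_zero.1 h1]
        simp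
      · have : ((UpTo F X).ncard : ℝ) ≠ 0 := by exact_mod_cast h0.ne'
        field_simp
    have hup : ∀ R : ℕ, ∑ r ∈ Finset.range R, d r ≤ 1 := by
      intro R
      have h1 : Tendsto (fun n => ∑ r ∈ Finset.range R, δ F r (x n)) atTop
          (𝓝 (∑ r ∈ Finset.range R, d r)) := tendsto_finset_sum _ fun r _ => hd r
      refine le_of_tendsto h1 (hev.mono fun n hn => ?_)
      have h0 := hne (x n) hn
      have h0' : (0 : ℝ) < ((UpTo F (x n)).ncard : ℝ) := by exact_mod_cast h0
      refine le_of_mul_le_mul_right ?_ h0'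
      rw [Finset.sum_mul, one_mul]
      have h2 := hfib R (x n) (fun _ => 1)
      simp only [one_mul] at h2
      simp only [hδ]
      rw [h2, Finset.sum_const, nsmul_eq_mul, mul_one, Set.ncard_eq_toFinset_card _ (hfin (x n))]
      exact_mod_cast Finset.card_filter_le _ _
    have hlow : ∀ R : ℕ, 1 - C / 2 ^ R ≤ ∑ r ∈ Finset.range R, d r := by
      intro R
      have h1 : Tendsto (fun n => ∑ r ∈ Finset.range R, δ F r (x n)) atTop
          (𝓝 (∑ r ∈ Finset.range R, d r)) := tendsto_finset_sum _ fun r _ => hd r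
      refine ge_of_tendsto h1 (hev.mono fun n hn => ?_)
      have h0 := hne (x n) hn
      have h0' : (0 : ℝ) < ((UpTo F (x n)).ncard : ℝ) := by exact_mod_cast h0
      refine le_of_mul_le_mul_right ?_ h0'
      rw [Finset.sum_mul]
      have h2 := hfib R (x n) (fun _ => 1)
      simp only [one_mul] at h2
      simp only [hδ]
      rw [h2, Finset.sum_const, nsmul_eq_mul, mul_one]
      have h3 := htail R (x n)
      have h4 : (((hfin (x n)).toFinset.filter (fun p => rank p < R)).card : ℝ) +
          ({p ∈ UpTo F (x n) | R ≤ rank p}.ncard : ℝ) = ((UpTo F (x n)).ncard : ℝ) := by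
        have h5 : ({p ∈ UpTo F (x n) | R ≤ rank p}.ncard) =
            ((hfin (x n)).toFinset.filter (fun p => ¬ rank p < R)).card := by
          rw [← Set.ncard_coe_finset]
          congr 1
          ext p
          simp only [Set.mem_setOf_eq, Finset.coe_filter, Set.Finite.mem_toFinset, not_lt]
        rw [h5, Set.ncard_eq_toFinset_card _ (hfin (x n))]
        exact_mod_cast Finset.card_filter_add_card_filter_not (s := (hfin (x n)).toFinset)
          (fun p => rank p < R)
      have h6 : ({p ∈ UpTo F (x n) | R ≤ rank p}.ncard : ℝ) ≤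
          C / 2 ^ R * ((UpTo F (x n)).ncard : ℝ) := by
        rw [div_mul_eq_mul_div, le_div_iff₀ (by positivity)]
        linarith
      linarith
    have hsumm : Summable d := summable_of_sum_range_le hd0 hup
    refine ⟨?_, ?_⟩
    · have h1 : Tendsto (fun R : ℕ => ∑ r ∈ Finset.range R, d r) atTop (𝓝 1) := by
        have h2 : Tendsto (fun R : ℕ => 1 - C / 2 ^ R) atTop (𝓝 (1 - 0)) := by
          refine tendsto_const_nhds.sub ?_
          have h3 : Tendsto (fun R : ℕ => C * (1 / 2 : ℝ) ^ R) atTop (𝓝 (C * 0)) :=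
            (tendsto_pow_atTop_nhds_zero_of_lt_one (by norm_num) (by norm_num)).const_mul C
          rw [mul_zero] at h3
          refine h3.congr fun R => ?_
          rw [one_div, inv_pow]
          rfl
        rw [sub_zero] at h2
        exact tendsto_of_tendsto_of_tendsto_of_le_of_le h2 tendsto_const_nhds hlow hup
      exact (hsumm.hasSum_iff_tendsto_nat).2 h1
    · intro R
      have h1 : Tendsto (fun n => ∑ r ∈ Finset.range R, (2 : ℝ) ^ r * δ F r (x n)) atTop
          (𝓝 (∑ r ∈ Finset.range R, 2 ^ r * d r)) :=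
        tendsto_finset_sum _ fun r _ => (hd r).const_mul _
      refine le_of_tendsto h1 (hev.mono fun n hn => ?_)
      have h0 := hne (x n) hn
      have h0' : (0 : ℝ) < ((UpTo F (x n)).ncard : ℝ) := by exact_mod_cast h0
      refine le_of_mul_le_mul_right ?_ h0'
      rw [Finset.sum_mul]
      have h2 := hfib R (x n) (fun r => 2 ^ r)
      simp only [mul_assoc, hδ]
      rw [h2]
      refine le_trans (Finset.sum_le_sum_of_subset_of_nonneg (Finset.filter_subset _ _)
        fun p _ _ => by positivity) (hsum (x n))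

end Pool.Agent.Results.MP_7cad78_nt.BoundedAverageRank
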