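import Pool.Agent.P8H4.PX.Ext

/-!
# Rank zero over extensions of 2-power degree for a positive proportion of all elliptic curves

Let `F` be any number field.  The family is the one of the problem: the pairs `(A, B)` of integers of `F`
with `4 A³ + 27 B² ≠ 0` such that no nonzero prime ideal `𝔭` has `𝔭⁴ ∣ A` and `𝔭⁶ ∣ B`, ordered by the
height `max_σ max (4 |σ A|³, 27 |σ B|²)`.

Theorem.  Let `K / F` be a Galois extension of 2-power degree, not ramified at the primes above six and
at the infinite places.  Then a positive proportion of all the elliptic curves `E` over `F` has trivial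
2-Selmer group over `K`: `E(K)` is finite of odd order and `Ш(E / K)` has no element of order two.  More
precisely, for every `T` there is a finite set `S` of prime numbers such that for a positive proportion
of all `E : y² = x³ + A x + B` the cubic is irreducible modulo all primes of `F` of residue
characteristic at most `T` except three, `E` has trivial 2-Selmer group over `K`, and `E` has trivial
2-Selmer group over EVERY Galois extension `M / F` of 2-power degree such that: the primes above `S`
split completely in `M`; the primes which ramify in `M` do not divide six and the cubic is irreducible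
modulo them; and the real places of `F` which become complex in `M` have `4 A³ + 27 B² > 0`.  In
particular the curves of this positive proportion have rank zero over all the (in general infinitely
many) Galois extensions of 2-power degree in which `S` and the infinite places split completely and
which are not ramified outside the primes of residue characteristic `5, ..., T`, simultaneously.

The proof.  (1) The method of project PF (`MP_7cad78_nt.RankZeroEveryNumberField` for `K = F`) gives a
positive proportion with trivial 2-Selmer group over `F`; here the 2-descent families are constructed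
with prescribed reductions: `4 A³ + 27 B²` has no square factors outside `S`, the cubic is irreducible
modulo the primes up to `T`, the curve has no points with singular reduction over the completions at the
primes above two, and all primes of `S` split completely in `K`.  (2) So `E(F_v) = E⁰(F_v)` for all `v`
outside `S`, and the Tamagawa numbers there are one.  (3) If the 2-Selmer group over `M` is not zero it
has a nonzero class fixed by the 2-group `Gal(M / F)`, which extends to a cocycle over `F` as `E(M)` has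
no points of order two; this cocycle is locally trivial: at the places that split completely; at the
unramified places as `H¹(Gal(M_w / F_v), E(M_w)) = 0` for unramified extensions when the Tamagawa number
is odd (Lang's theorem and the filtration of the formal group; project UL); at the ramified places as
`E[2]` has no fixed points over the residue field; at the real places as `E(ℝ)` is connected if
`4 A³ + 27 B² > 0`.

Parts of the proof by the helpers of project PF (named in `RankZeroEveryNumberField`) and of project UL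
(helpers 17, 24, 29, 54, 55, 57, 72, 76, 80, 89, 92).
-/

set_option autoImplicit false

open Filter NumberField IsDedekindDomain Polynomial WeierstrassCurve

namespace Pool.Agent.Results.MP_7cad78_nt.RankZeroInTwoExtensions

open scoped Classical

open Pool.Agent.TH841.NF.D (Sha)

section defs

variable (F : Type) [Field F] [NumberField F]

/-- The family of the problem: pairs of integers `(A, B)` with `4 A ^ 3 + 27 B ^ 2 ≠ 0` for which no
nonzero prime ideal `𝔭` satisfies both `𝔭 ^ 4 ∣ A` and `𝔭 ^ 6 ∣ B`. -/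
def Family : Set (𝓞 F × 𝓞 F) :=
  {p | 4 * p.1 ^ 3 + 27 * p.2 ^ 2 ≠ 0 ∧
    ∀ 𝔭 : Ideal (𝓞 F), 𝔭.IsPrime → 𝔭 ≠ ⊥ → ¬ (p.1 ∈ 𝔭 ^ 4 ∧ p.2 ∈ 𝔭 ^ 6)}

variable {F}

/-- The height `max_σ max (4 |σ A|³, 27 |σ B|²)`, over the embeddings `σ : F → ℂ`. -/
noncomputable def height (p : 𝓞 F × 𝓞 F) : ℝ :=
  ⨆ σ : F →+* ℂ, max (4 * ‖σ (p.1 : F)‖ ^ 3) (27 * ‖σ (p.2 : F)‖ ^ 2)

variable (F) in
/-- The members of the family of height at most `X`. -/
def UpTo (X : ℝ) : Set (𝓞 F × 𝓞 F) := {p ∈ Family F | height p ≤ X}

/-- The curve `y ^ 2 = x ^ 3 + A x + B` over the extension `M` of `F`. -/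
def curve (M : Type) [Field M] [Algebra F M] (p : 𝓞 F × 𝓞 F) : WeierstrassCurve M :=
  ⟨0, 0, 0, algebraMap F M (p.1 : F), algebraMap F M (p.2 : F)⟩

/-- The 2-Selmer group of `E / L` is trivial: `E(L)` is finite of odd order and the Tate-Shafarevich
group has no elements of order two. -/
structure SelTwoTrivial {L : Type} [Field L] [NumberField L] (E : WeierstrassCurve L) : Prop where
  finite : Finite E.toAffine.Point
  odd : Odd (Nat.card E.toAffine.Point)
  sha : ∀ s : Sha E, 2 • s = 0 → s = 0

/-- The cubic `x ^ 3 + A x + B` modulo the prime `v`. -/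
noncomputable def cubic (p : 𝓞 F × 𝓞 F) (v : HeightOneSpectrum (𝓞 F)) : (𝓞 F ⧸ v.asIdeal)[X] :=
  X ^ 3 + C (Ideal.Quotient.mk v.asIdeal p.1) * X + C (Ideal.Quotient.mk v.asIdeal p.2)

variable {M : Type} [Field M] [NumberField M] [Algebra F M]

variable (F) in
/-- The prime `w` of `M` is ramified over `F`: the prime `v` below satisfies `v 𝓞_M ⊂ w²`. -/
def Ramified (w : HeightOneSpectrum (𝓞 M)) : Prop :=
  Ideal.map (algebraMap (𝓞 F) (𝓞 M)) (w.asIdeal.under (𝓞 F)) ≤ w.asIdeal ^ 2

variable (F M) in
/-- The extension `M / F` is not ramified at the primes above six and at the infinite places. -/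
structure Tame : Prop where
  six : ∀ w : HeightOneSpectrum (𝓞 M), Ramified F w → (6 : 𝓞 M) ∉ w.asIdeal
  real : ∀ j : M →+* ℂ, ComplexEmbedding.IsReal (j.comp (algebraMap F M)) →
    ComplexEmbedding.IsReal j

variable (M) in
/-- The conditions for the extension `M / F` and the curve `(A, B)`: the primes above `S` split
completely in `M` (they are not ramified and the norms of the primes above are the same); the primes
that ramify in `M` do not divide six and the cubic is irreducible modulo them; at the real places of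
`F` which become complex in `M` the number `4 A ^ 3 + 27 B ^ 2` is positive. -/
structure Admissible (S : Finset ℕ) (p : 𝓞 F × 𝓞 F) : Prop where
  split : ∀ w : HeightOneSpectrum (𝓞 M), (∃ q ∈ S, (q : 𝓞 M) ∈ w.asIdeal) →
    ¬ Ramified F w ∧ Ideal.absNorm w.asIdeal = Ideal.absNorm (w.asIdeal.under (𝓞 F))
  ramified : ∀ w : HeightOneSpectrum (𝓞 M), Ramified F w → (6 : 𝓞 M) ∉ w.asIdeal ∧
    Irreducible (cubic p (w.under (𝓞 F)))
  real : ∀ j : M →+* ℂ, ComplexEmbedding.IsReal (j.comp (algebraMap F M)) →
    ComplexEmbedding.IsReal j ∨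
      0 < (j (algebraMap F M ((4 * p.1 ^ 3 + 27 * p.2 ^ 2 : 𝓞 F) : F))).re

end defs

section proof

open Pool.Agent.N783.PF (Crv Good)
open Pool.Agent.P8H4.PX (Wp ExtP Adm p1_ext fin1x)

theorem crv_iff {F : Type} [Field F] [NumberField F] (X : ℝ) (p : 𝓞 F × 𝓞 F) :
    Crv X p ↔ p ∈ UpTo F X := by
  have hb : BddAbove (Set.range fun σ : F →+* ℂ =>
      max (4 * ‖σ (p.1 : F)‖ ^ 3) (27 * ‖σ (p.2 : F)‖ ^ 2)) := Set.Finite.bddAbove (Set.finite_range _)
  constructor
  · rintro ⟨h1, h2, h3⟩
    refine ⟨⟨h1, h2⟩, ciSup_le fun σ => max_le (h3 σ).1 (h3 σ).2⟩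
  · rintro ⟨⟨h1, h2⟩, h3⟩
    refine ⟨h1, h2, fun σ => ?_⟩
    have h4 := (le_ciSup hb σ).trans h3
    exact ⟨(le_max_left _ _).trans h4, (le_max_right _ _).trans h4⟩

variable {F M : Type} [Field F] [NumberField F] [Field M] [NumberField M] [Algebra F M]

omit [NumberField F] [NumberField M] in
lemma curve_eq (p : 𝓞 F × 𝓞 F) :
    ((Wp p).map (algebraMap (𝓞 F) F)).map (algebraMap F M) = curve M p := by
  unfold Wp curve
  ext <;> simp

lemma sel_of {S : Finset ℕ} {T : ℕ} {X : ℝ} {p : 𝓞 F × 𝓞 F} (hc : Crv X p) (hg : Good p)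
    (hx : ExtP S T p) [IsGalois F M] (m : ℕ) (hm : Module.finrank F M = 2 ^ m)
    (ha : Admissible M S p) : SelTwoTrivial (curve M p) := by
  have h := p1_ext hm hc.disc hg hx ⟨ha.split, ha.ramified, ha.real⟩
  rw [curve_eq] at h
  refine ⟨h.fin, ?_, h.sha⟩
  rw [← Nat.not_even_iff_odd, even_iff_two_dvd]
  exact h.card

/-- the given extension is admissible for all curves -/
lemma adm_of (hM : Tame F M) {S : Finset ℕ} {T : ℕ} (hT : (discr M).natAbs ≤ T)
    (hS : ∀ q ∈ S, q.Prime ∧ T < q ∧ Pool.Agent.N783.CF.Spl M q ∧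
      ∀ 𝔓 : Ideal (𝓞 M), 𝔓.IsPrime → (q : 𝓞 M) ∉ 𝔓 ^ 2)
    {p : 𝓞 F × 𝓞 F} (hx : ExtP S T p) : Admissible M S p := by
  have hex : ∀ w : HeightOneSpectrum (𝓞 M), ∃ q : ℕ, q.Prime ∧ (q : 𝓞 M) ∈ w.asIdeal := by
    intro w
    obtain ⟨q, hq, h⟩ := Pool.Agent.P8H4.PL.exists_prime_mem w
    exact ⟨q, hq, h⟩
  have hun : ∀ (w : HeightOneSpectrum (𝓞 M)) (q : ℕ), Ramified F w → (q : 𝓞 M) ∈ w.asIdeal →
      (q : 𝓞 M) ∈ w.asIdeal ^ 2 := by
    intro w q hw hq
    apply hw
    have h1 : (q : 𝓞 F) ∈ w.asIdeal.under (𝓞 F) := by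
      rw [Ideal.mem_comap, map_natCast]
      exact hq
    have h2 := Ideal.mem_map_of_mem (algebraMap (𝓞 F) (𝓞 M)) h1
    rw [map_natCast] at h2
    exact h2
  refine ⟨?_, ?_, fun j hj => Or.inl (hM.real j hj)⟩
  · rintro w ⟨q, hq, hqw⟩
    obtain ⟨h1, h2, h3, h4⟩ := hS q hq
    refine ⟨fun h => h4 _ w.isPrime (hun w q h hqw), ?_⟩
    -- the residue fields
    have hqF : (q : 𝓞 F) ∈ w.asIdeal.under (𝓞 F) := by
      rw [Ideal.mem_comap, map_natCast]
      exact hqw
    have h0 : w.asIdeal.under (𝓞 F) ≠ ⊥ := Ideal.under_ne_bot (𝓞 F) w.ne_bot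
    have hmax : w.asIdeal.IsMaximal := w.isMaximal
    have hpr : (w.asIdeal.under (𝓞 F)).IsPrime := Ideal.IsPrime.under (𝓞 F) w.asIdeal
    have hmax' : (w.asIdeal.under (𝓞 F)).IsMaximal := hpr.isMaximal h0
    have key : ∀ (L : Type) [Field L] [NumberField L] (I : Ideal (𝓞 L)), I.IsMaximal → I ≠ ⊥ →
        (q : 𝓞 L) ∈ I → (∀ a : 𝓞 L, a ^ q - a ∈ I) → Ideal.absNorm I = q := by
      intro L _ _ I hI hI0 hqI ha
      have hfin : Finite (𝓞 L ⧸ I) := Ideal.finiteQuotientOfFreeOfNeBot I hI0
      let _ : Field (𝓞 L ⧸ I) := Ideal.Quotient.field I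
      have hfrob : ∀ x : 𝓞 L ⧸ I, x ^ q = x := by
        intro x
        obtain ⟨a, rfl⟩ := Ideal.Quotient.mk_surjective x
        rw [← map_pow, ← sub_eq_zero, ← map_sub, Ideal.Quotient.eq_zero_iff_mem]
        exact ha a
      have : Fintype (𝓞 L ⧸ I) := Fintype.ofFinite _
      have hle : Fintype.card (𝓞 L ⧸ I) ≤ q := by
        have hne : (X ^ q - X : (𝓞 L ⧸ I)[X]) ≠ 0 :=
          FiniteField.X_pow_card_sub_X_ne_zero (𝓞 L ⧸ I) h1.one_lt
        have hsub : (Finset.univ : Finset (𝓞 L ⧸ I)) ⊆
            (X ^ q - X : (𝓞 L ⧸ I)[X]).roots.toFinset := by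
          intro x _
          rw [Multiset.mem_toFinset, mem_roots hne, IsRoot.def]
          simp [hfrob x]
        calc Fintype.card (𝓞 L ⧸ I) = (Finset.univ : Finset (𝓞 L ⧸ I)).card := rfl
          _ ≤ _ := Finset.card_le_card hsub
          _ ≤ _ := Multiset.toFinset_card_le _
          _ ≤ _ := card_roots' _
          _ = q := FiniteField.X_pow_card_sub_X_natDegree_eq (p := q) _ h1.one_lt
      have hchar : CharP (𝓞 L ⧸ I) q := by
        have : Fact q.Prime := ⟨h1⟩
        have h5 : ((q : ℕ) : 𝓞 L ⧸ I) = 0 := by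
          rw [← map_natCast (Ideal.Quotient.mk I), Ideal.Quotient.eq_zero_iff_mem]
          exact hqI
        exact (CharP.charP_iff_prime_eq_zero h1).2 h5
      have hge : q ≤ Fintype.card (𝓞 L ⧸ I) := by
        have : Fact q.Prime := ⟨h1⟩
        obtain ⟨n, -, h6⟩ := FiniteField.card (𝓞 L ⧸ I) q
        rw [h6]
        exact Nat.le_self_pow n.ne_zero q
      rw [Ideal.absNorm_apply, Submodule.cardQuot_apply, Nat.card_eq_fintype_card]
      exact le_antisymm hle hge
    rw [key M w.asIdeal hmax w.ne_bot hqw (h3 _ w.isPrime hqw),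
      key F _ hmax' h0 hqF (fun a => ?_)]
    have h7 := h3 _ w.isPrime hqw (algebraMap (𝓞 F) (𝓞 M) a)
    rw [Ideal.mem_comap, map_sub, map_pow]
    exact h7
  · intro w hw
    have h6 := hM.six w hw
    refine ⟨h6, ?_⟩
    obtain ⟨q, hq, hqw⟩ := hex w
    have hle : q ≤ T := by
      by_contra hcon
      rw [not_le] at hcon
      exact Pool.Agent.N710.PF.not_mem_sq hq (hT.trans_lt hcon) w.isPrime (hun w q hw hqw)
    apply hx.irr (w.under (𝓞 F)) ⟨q, hq, hle, ?_⟩
    · intro h3
      apply h6
      have h8 : (3 : 𝓞 M) ∈ w.asIdeal := by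
        have h9 : (3 : 𝓞 F) ∈ w.asIdeal.under (𝓞 F) := h3
        rw [Ideal.mem_comap, map_ofNat] at h9
        exact h9
      have : (6 : 𝓞 M) = 2 * 3 := by norm_num
      rw [this]
      exact Ideal.mul_mem_left _ _ h8
    · show (q : 𝓞 F) ∈ w.asIdeal.under (𝓞 F)
      rw [Ideal.mem_comap, map_natCast]
      exact hqw

end proof

/-- **Main theorem.** Let `K / F` be a Galois extension of number fields of degree `2 ^ n`, not ramified
at the primes above six and at the infinite places, and `T` a natural number.  There is a finite set `S`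
of prime numbers such that a positive proportion of the members of the family of height at most `X`
satisfies all of the following: the cubic is irreducible modulo all primes of residue characteristic at
most `T` except three; the 2-Selmer group over `K` is trivial; the 2-Selmer group is trivial over all
Galois extensions `M / F` of 2-power degree that are admissible for `S` and the curve. -/
theorem result (F K : Type) [Field F] [NumberField F] [Field K] [NumberField K] [Algebra F K]
    [IsGalois F K] (n : ℕ) (hn : Module.finrank F K = 2 ^ n) (hK : Tame F K) (T : ℕ) :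
    (∀ X : ℝ, (UpTo F X).Finite) ∧
    ∃ S : Finset ℕ, (∀ q ∈ S, q.Prime ∧ T < q) ∧ ∃ c : ℝ, 0 < c ∧ ∀ᶠ X : ℝ in atTop,
      0 < (UpTo F X).ncard ∧
      c * ((UpTo F X).ncard : ℝ) ≤ ({p ∈ UpTo F X |
        (∀ v : HeightOneSpectrum (𝓞 F), (∃ q : ℕ, q.Prime ∧ q ≤ T ∧ (q : 𝓞 F) ∈ v.asIdeal) →
          (3 : 𝓞 F) ∉ v.asIdeal → Irreducible (cubic p v)) ∧
        SelTwoTrivial (curve K p) ∧
        ∀ (M : Type) [Field M] [NumberField M] [Algebra F M] [IsGalois F M] (m : ℕ),
          Module.finrank F M = 2 ^ m → Admissible M S p → SelTwoTrivial (curve M p)}.ncard : ℝ) := by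
  have hset : ∀ X : ℝ, UpTo F X = {p : 𝓞 F × 𝓞 F | Pool.Agent.N783.PF.Crv X p} := by
    intro X
    ext p
    exact (crv_iff X p).symm
  obtain ⟨S, hS, c, hc, Y₀, h⟩ := Pool.Agent.P8H4.PX.fin1x F K (max T (discr K).natAbs)
  have hfin : ∀ X : ℝ, (UpTo F X).Finite := fun X => by
    rw [hset]
    exact (h X).1
  refine ⟨hfin, S, fun q hq => ⟨(hS q hq).1, (le_max_left _ _).trans_lt (hS q hq).2.1⟩, c, hc, ?_⟩
  filter_upwards [eventually_ge_atTop Y₀] with X hX
  obtain ⟨h1, h2⟩ := (h X).2 hX
  rw [← hset] at h1 h2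
  refine ⟨h1, h2.trans ?_⟩
  have h3 := Set.ncard_le_ncard (s := {p : 𝓞 F × 𝓞 F | Pool.Agent.N783.PF.Crv X p ∧
      Pool.Agent.N783.PF.Good p ∧ Pool.Agent.P8H4.PX.ExtP S (max T (discr K).natAbs) p})
    (t := {p ∈ UpTo F X |
        (∀ v : HeightOneSpectrum (𝓞 F), (∃ q : ℕ, q.Prime ∧ q ≤ T ∧ (q : 𝓞 F) ∈ v.asIdeal) →
          (3 : 𝓞 F) ∉ v.asIdeal → Irreducible (cubic p v)) ∧
        SelTwoTrivial (curve K p) ∧
        ∀ (M : Type) [Field M] [NumberField M] [Algebra F M] [IsGalois F M] (m : ℕ),
          Module.finrank F M = 2 ^ m → Admissible M S p → SelTwoTrivial (curve M p)}) ?_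
    ((hfin X).subset fun p hp => hp.1)
  · exact_mod_cast h3
  · rintro p ⟨hp, hg, hx⟩
    refine ⟨(crv_iff X p).1 hp, ?_, ?_, ?_⟩
    · rintro v ⟨q, hq, hqT, hqv⟩ h3
      exact hx.irr v ⟨q, hq, hqT.trans (le_max_left _ _), hqv⟩ h3
    · exact sel_of hp hg hx n hn (adm_of hK (le_max_right _ _) hS hx)
    · intro M _ _ _ _ m hm ha
      exact sel_of hp hg hx m hm ha

end Pool.Agent.Results.MP_7cad78_nt.RankZeroInTwoExtensions
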